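import Pool.Agent.helper90.ZD.Defs
import Pool.Agent.helper6.LD.Defs

/-!
# Project zd (MP_4467b5_nt), part C: from large values to the zero density theorem

Final theorem: `N(σ, T) ≤ C T^(39/17 (1 - σ) + ε)` for all `1/2 ≤ σ ≤ 1` (paper
`/team-store/MP_4467b5_GM_helper90.md`, sections 6 and 7).

Module `XX` proves `theorem XX (h1 : AA_stmt) (h2 : BB_stmt) … : XX_stmt` in the file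
`Pool/Agent/<seat>/ZD/XX.lean`, namespace `Pool.Agent.ZD`, `import Pool.Agent.helper86.ZD.SpecC` plus
the library files named in the docstring, and the `open` line below. Hypotheses: the statements
named under `uses`. Auxiliary lemmas are prefixed `XX_`. No `sorry`, no double quotes.

Library (see also the list at the top of `Pool/Agent/helper15/DH/Spec.lean`):
`Zer σ T Z`, `loc Z t`, `Zt η V t` (`Pool.Agent.helper78.ED`), `d n`, `mult ρ`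
(`Pool.Agent.helper84.DM`), `DP N a u = ∑ n ∈ Ioc N (2N), a n * n^(-iu)`, `TAY_stmt`, `DET_stmt`,
`TWO_stmt`, `COR_stmt` (`Pool.Agent.DH`), `dp N a t = ∑ n ∈ Icc 1 N, a n * n^(-it)`
(`Pool.Agent.helper6.LD`), `mean_value` (`Pool.Agent.helper58.LD.MV`, namespace
`Pool.Agent.helper6.LD`), `pow_poly` (`Pool.Agent.helper63.ED.PW`), `divisor_bound`
(`Pool.Agent.helper59.DM.DV`), `local_count`, `global_count`, `mult_le`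
(`Pool.Agent.helper63.ED.LC`).
-/

set_option autoImplicit false

open Complex MeasureTheory

namespace Pool.Agent.ZD

open Pool.Agent.helper84.DM Pool.Agent.helper78.ED Pool.Agent.DH

/-- **CSEP** (medium). uses: nothing; library: `local_count`. A separated set of ordinates.
Proof. `D = T^ϑ ≥ 1`. For `ρ ∈ Z` let `g ρ = ⌊ρ.im / D⌋₊`. The set `A = g(Z)` is the union of its even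
part and its odd part; let `A'` be the larger one (`A.card ≤ 2 A'.card`) and `W` the set of the
ordinates of representatives `ρ_j ∈ Z`, `g ρ_j = j`, `j ∈ A'`. For `j ≠ j'` in `A'`, `|j - j'| ≥ 2`,
hence `|Im ρ_j - Im ρ_j'| ≥ D` (so `W.card = A'.card`). The ordinates of the zeros with `g ρ = j` lie
in `[j D, (j+1) D]`, which is covered by the intervals `[j D + i, j D + i + 1]`, `i ≤ ⌊D⌋`, at most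
`D + 1 ≤ 2 D` of them; if the fibre is not empty, `j D ≥ T - D ≥ T - T^(1/2) ≥ 1` and
`j D + i ≤ 2 T + D ≤ 3 T`, so each of them contains at most `C log T` zeros (`local_count`). So
`Z.card ≤ ∑ j ∈ A, 2 D C log T ≤ 4 C D log T * W.card` and `log T ≤ T^ϑ/ϑ`. -/
def CSEP_stmt : Prop := ∀ ϑ : ℝ, 0 < ϑ → ϑ ≤ 1 / 2 → ∃ C T₀ : ℝ, 0 < C ∧ ∀ T : ℝ, T₀ ≤ T →
  ∀ σ : ℝ, 1 / 2 ≤ σ → ∀ Z : Finset ℂ, Zer σ T Z → ∃ W : Finset ℝ, Sep ϑ T W ∧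
    (∀ t ∈ W, ∃ ρ ∈ Z, ρ.im = t) ∧ (Z.card : ℝ) ≤ C * T ^ (2 * ϑ) * (W.card : ℝ)

/-- **MVK** (medium). uses: nothing; library: `mean_value`, `pow_poly`, `divisor_bound`. (PROVED:
`Pool/Agent/helper45/ZD/MVK.lean`.)
Proof. `pow_poly`: `(DP N a u)^k = ∑ n ∈ Ioc (N^k) ((2N)^k), b n * n^(-iu)`, `‖b n‖ ≤ A^k d(n)^k`
(the exponent `-s` with `s = i u`; `0 ≤ A` because `Ioc N (2N)` is not empty). With `b' n = b n` on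
this interval and `0` elsewhere the right side is `dp ((2N)^k) b' u`. `mean_value` with
`N' = (2N)^k`, `H = T`, `P = W` (`T ^ 0 = 1`):
`W.card * V^(2k) ≤ (T + 1 + 4 N' (1 + log N')) (2 + log² N') ∑ n ≤ N', ‖b' n‖²`, the last sum is at
most `N' A^(2k) D^(2k)`, `D = max d(n) ≤ C N'^η`, `N' ≤ (2 T)^k`; all the factors `log N'`, `D^(2k)`,
`2^k` are at most `C T^(ε/4)`. -/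
def MVK_stmt : Prop := ∀ (ε : ℝ) (k : ℕ), 0 < ε → 1 ≤ k → ∃ C : ℝ, 0 < C ∧
  ∀ T : ℝ, 1 ≤ T → ∀ W : Finset ℝ, Sep 0 T W → ∀ (N : ℕ) (a : ℕ → ℂ) (A V : ℝ), 1 ≤ N →
  (N : ℝ) ≤ T → 0 ≤ V → (∀ n ∈ Finset.Ioc N (2 * N), ‖a n‖ ≤ A) → (∀ t ∈ W, V ≤ ‖DP N a t‖) →
  (W.card : ℝ) * V ^ (2 * k) ≤ C * A ^ (2 * k) * T ^ ε * ((T + (N : ℝ) ^ k) * (N : ℝ) ^ k)

/-- **CPOW** (short/medium). uses: nothing. Choice of the power.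
Proof. Choose `T₀` with `T₀^δ ≥ 16`, so `N ≥ T^δ/2 ≥ T^(δ/2) ≥ 4`. `m = ⌊log T / log N⌋₊`:
`N^m ≤ T < N^(m+1)`; `N² ≤ T^(13/17) < T` gives `m ≥ 2`. Since `N ≥ T^(δ/2)`, `m ≤ 2/δ`, so
`m + 1 ≤ 3/δ` (as `δ ≤ 1/4`, `1 ≤ 1/δ`).
If `N^(m+1) ≤ T^(39/34)` take `k = m + 1` (`N^(m+1) > T ≥ T^(29/34)`). Otherwise take `k = m`:
`m = 2` is impossible, because `N³ ≤ T^(39/34)`; so `m ≥ 3` and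
`N^m > T^((39/34) m/(m+1)) ≥ T^((39/34)(3/4)) = T^(117/136) ≥ T^(116/136) = T^(29/34)`, and
`N^m ≤ T ≤ T^(39/34)`. -/
def CPOW_stmt : Prop := ∀ δ : ℝ, 0 < δ → δ ≤ 1 / 4 → ∃ T₀ : ℝ, ∀ T : ℝ, T₀ ≤ T → ∀ N : ℕ,
  T ^ δ / 2 ≤ (N : ℝ) → (N : ℝ) ≤ T ^ (13 / 34 : ℝ) → ∃ k : ℕ, 1 ≤ k ∧ (k : ℝ) ≤ 3 / δ ∧
    T ^ (29 / 34 : ℝ) ≤ (N : ℝ) ^ k ∧ (N : ℝ) ^ k ≤ T ^ (39 / 34 : ℝ)

/-- **CMR** (short, real numbers only). uses: nothing.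
Proof. `M ≥ T`: `(T + M) M M^(-2σ) ≤ 2 M^(2-2σ) ≤ 2 (T^(39/34))^(2-2σ) = 2 T^(39/17 (1-σ))`.
`M ≤ T`: `(T + M) M M^(-2σ) ≤ 2 T M^(1-2σ) ≤ 2 T T^((29/34)(1-2σ))` (`1 - 2σ ≤ 0`) and
`39/17 (1-σ) - 1 - (29/34)(1 - 2σ) = (15 - 20σ)/34 ≥ 0`. -/
def CMR_stmt : Prop := ∀ T M σ : ℝ, 1 ≤ T → 1 / 2 ≤ σ → σ ≤ 3 / 4 → T ^ (29 / 34 : ℝ) ≤ M →
  M ≤ T ^ (39 / 34 : ℝ) → (T + M) * M * M ^ (-(2 * σ)) ≤ 2 * T ^ (39 / 17 * (1 - σ))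

/-- **CMQ** (short, real numbers only). uses: nothing.
Proof. `T ≤ M`: `(T + M) M M^(-2σ) ≤ 2 M^(2-2σ) ≤ 2 T^((1+2δ)(2-2σ))` and
`(1+2δ)(2-2σ) ≤ 39/17 (1-σ) + 4 δ`. `M ≤ T`, `σ ≤ 9/13`:
`(T + M) M M^(-2σ) ≤ 2 T M^(1-2σ) ≤ 2 T T^((13/17)(1-2σ))` (`1 - 2σ ≤ 0`) and
`39/17 (1-σ) - 1 - (13/17)(1-2σ) = (9 - 13σ)/17 ≥ 0`. -/
def CMQ_stmt : Prop := ∀ T M σ δ : ℝ, 1 ≤ T → 0 ≤ δ → 1 / 2 ≤ σ → σ ≤ 3 / 4 →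
  T ^ (13 / 17 : ℝ) ≤ M → M ≤ T ^ (1 + 2 * δ) → (σ ≤ 9 / 13 ∨ T ≤ M) →
    (T + M) * M * M ^ (-(2 * σ)) ≤ 2 * T ^ (39 / 17 * (1 - σ) + 4 * δ)

/-- **CMA** (medium). uses: MVK_stmt, CPOW_stmt, CMR_stmt. Class one, `N ≤ T^(13/34)`.
Proof. `K = ⌊3/δ⌋₊`, `κ = min 1 (ε δ/24)`; `k ≤ K` from CPOW; MVK with `ε/4` and this `k` (take for
the constant the sum of the constants of MVK over `k ∈ Icc 1 K`), `V = N^σ/(4 C₁ log T)`,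
`A = C₁ T^κ`, `M = N^k` (`T^(29/34) ≤ M ≤ T^(39/34)`), `N ≤ T`:
`W.card ≤ C T^(ε/4) (C₁ T^κ)^(2k) (4 C₁ log T)^(2k) (T + M) M M^(-2σ)` (`N^(2kσ) = M^(2σ)`),
`T^(2kκ) ≤ T^(ε/4)` since `2 k κ ≤ (6/δ) κ ≤ ε/4`, `(C₁ · 4 C₁ log T)^(2k) ≤ C' T^(ε/4)` for all
`k ≤ K` (`≤ (1 + 4 C₁² log T)^(2K)`), and CMR. (`N ≥ 1`, `M > 0`.) -/
def CMA_stmt : Prop := ∀ ε δ : ℝ, 0 < ε → 0 < δ → δ ≤ 1 / 4 → ∃ κ : ℝ, 0 < κ ∧ κ ≤ 1 ∧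
  ∀ C₁ : ℝ, 0 < C₁ → ∃ C T₀ : ℝ, 0 < C ∧ ∀ T : ℝ, T₀ ≤ T → ∀ σ : ℝ, 1 / 2 ≤ σ → σ ≤ 3 / 4 →
  ∀ N : ℕ, T ^ δ / 2 ≤ (N : ℝ) → (N : ℝ) ≤ T ^ (13 / 34 : ℝ) → ∀ a : ℕ → ℂ,
  (∀ n ∈ Finset.Ioc N (2 * N), ‖a n‖ ≤ C₁ * T ^ κ) → ∀ W : Finset ℝ, Sep 0 T W →
  (∀ t ∈ W, (N : ℝ) ^ σ / (4 * C₁ * Real.log T) ≤ ‖DP N a t‖) →
    (W.card : ℝ) ≤ C * T ^ (39 / 17 * (1 - σ) + ε)

/-- **CMB** (medium). uses: MVK_stmt, CMQ_stmt. Class one, `N ≥ T^(13/34)`, the cases which are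
reached by the mean value of the square.
Proof. As CMA with `k = 2`, `M = N²` (`T^(13/17) ≤ M ≤ T^(1+2δ)`; `N ≤ T`), `κ = min 1 (ε/16)`,
`T^(4κ) ≤ T^(ε/4)`, and CMQ (`T ^ (1/2) ≤ N` gives `T ≤ M`). -/
def CMB_stmt : Prop := ∀ ε δ : ℝ, 0 < ε → 0 < δ → δ ≤ 1 / 4 → ∃ κ : ℝ, 0 < κ ∧ κ ≤ 1 ∧
  ∀ C₁ : ℝ, 0 < C₁ → ∃ C T₀ : ℝ, 0 < C ∧ ∀ T : ℝ, T₀ ≤ T → ∀ σ : ℝ, 1 / 2 ≤ σ → σ ≤ 3 / 4 →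
  ∀ N : ℕ, T ^ (13 / 34 : ℝ) ≤ (N : ℝ) → (N : ℝ) ≤ T ^ (1 / 2 + δ) →
  (σ ≤ 9 / 13 ∨ T ^ (1 / 2 : ℝ) ≤ (N : ℝ)) →
  ∀ a : ℕ → ℂ, (∀ n ∈ Finset.Ioc N (2 * N), ‖a n‖ ≤ C₁ * T ^ κ) → ∀ W : Finset ℝ, Sep 0 T W →
  (∀ t ∈ W, (N : ℝ) ^ σ / (4 * C₁ * Real.log T) ≤ ‖DP N a t‖) →
    (W.card : ℝ) ≤ C * T ^ (39 / 17 * (1 - σ) + ε + 4 * δ)

/-- **CMC** (short/medium). uses: MVK_stmt. Class one, third case of the mean value of the square.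
Proof. As CMB (copy it) with `k = 2`, `M = N² ≤ T`: `(T + M) M M^(-2σ) ≤ 2 T M^(1-2σ)
= 2 T / N^(2(2σ-1)) ≤ 2 T / T^(1 - 39/17 (1-σ)) = 2 T^(39/17 (1-σ))`. -/
def CMC_stmt : Prop := ∀ ε : ℝ, 0 < ε → ∃ κ : ℝ, 0 < κ ∧ κ ≤ 1 ∧
  ∀ C₁ : ℝ, 0 < C₁ → ∃ C T₀ : ℝ, 0 < C ∧ ∀ T : ℝ, T₀ ≤ T → ∀ σ : ℝ, 1 / 2 ≤ σ → σ ≤ 3 / 4 →
  ∀ N : ℕ, T ^ (13 / 34 : ℝ) ≤ (N : ℝ) → (N : ℝ) ≤ T ^ (1 / 2 : ℝ) →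
  T ^ (1 - 39 / 17 * (1 - σ)) ≤ (N : ℝ) ^ (2 * (2 * σ - 1)) →
  ∀ a : ℕ → ℂ, (∀ n ∈ Finset.Ioc N (2 * N), ‖a n‖ ≤ C₁ * T ^ κ) → ∀ W : Finset ℝ, Sep 0 T W →
  (∀ t ∈ W, (N : ℝ) ^ σ / (4 * C₁ * Real.log T) ≤ ‖DP N a t‖) →
    (W.card : ℝ) ≤ C * T ^ (39 / 17 * (1 - σ) + ε)

/-- **CONE** (short/medium). uses: CMA_stmt, CMB_stmt, CMC_stmt, LVN_stmt. Class one for separated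
sets.
Proof. `ϑ = min δ₀ (min ε (1/2))` with `δ₀` from LVN (with `ε`); `κ` = the minimum of the `κ` of
CMA, CMB, CMC, LVN (`‖a n‖ ≤ C₁ T^κ ≤ C₁ T^κ'` for `κ ≤ κ'`, `T ≥ 1`). `Sep ϑ T W → Sep 0 T W` since
`T^ϑ ≥ 1 = T^0`. Cases: `N ≤ T^(13/34)`: CMA; otherwise `σ ≤ 9/13` or `T^(1/2) ≤ N`: CMB; otherwise
`T^(1 - 39/17 (1-σ)) ≤ N^(2(2σ-1))`: CMC; otherwise LVN. The constant is the sum of the four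
constants (`T^(4δ) ≥ 1`). -/
def CONE_stmt : Prop := ∀ ε : ℝ, 0 < ε → ∃ ϑ : ℝ, 0 < ϑ ∧ ϑ ≤ ε ∧ ϑ ≤ 1 / 2 ∧
  ∀ δ : ℝ, 0 < δ → δ ≤ 1 / 4 → ∃ κ : ℝ, 0 < κ ∧ κ ≤ 1 ∧
  ∀ C₁ : ℝ, 0 < C₁ → ∃ C T₀ : ℝ, 0 < C ∧ ∀ T : ℝ, T₀ ≤ T → ∀ σ : ℝ, 1 / 2 ≤ σ → σ ≤ 3 / 4 →
  ∀ N : ℕ, T ^ δ / 2 ≤ (N : ℝ) → (N : ℝ) ≤ T ^ (1 / 2 + δ) → ∀ a : ℕ → ℂ,
  (∀ n ∈ Finset.Ioc N (2 * N), ‖a n‖ ≤ C₁ * T ^ κ) → ∀ W : Finset ℝ, Sep ϑ T W →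
  (∀ t ∈ W, (N : ℝ) ^ σ / (4 * C₁ * Real.log T) ≤ ‖DP N a t‖) →
    (W.card : ℝ) ≤ C * T ^ (39 / 17 * (1 - σ) + ε + 4 * δ)

/-- **CALL** (short). uses: CONE_stmt, CSEP_stmt.
Proof. CONE with `ε/4` gives `ϑ ≤ ε/4`, `ϑ ≤ 1/2`; CSEP with this `ϑ`:
`Z.card ≤ C T^(2ϑ) W.card ≤ C T^(ε/2) C' T^(39/17 (1-σ) + ε/4 + 4δ)`. -/
def CALL_stmt : Prop := ∀ ε δ : ℝ, 0 < ε → 0 < δ → δ ≤ 1 / 4 → ∃ κ : ℝ, 0 < κ ∧ κ ≤ 1 ∧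
  ∀ C₁ : ℝ, 0 < C₁ → ∃ C T₀ : ℝ, 0 < C ∧ ∀ T : ℝ, T₀ ≤ T → ∀ σ : ℝ, 1 / 2 ≤ σ → σ ≤ 3 / 4 →
  ∀ N : ℕ, T ^ δ / 2 ≤ (N : ℝ) → (N : ℝ) ≤ T ^ (1 / 2 + δ) → ∀ a : ℕ → ℂ,
  (∀ n ∈ Finset.Ioc N (2 * N), ‖a n‖ ≤ C₁ * T ^ κ) → ∀ Z : Finset ℂ, Zer σ T Z →
  (∀ ρ ∈ Z, (N : ℝ) ^ σ / (4 * C₁ * Real.log T) ≤ ‖DP N a ρ.im‖) →
    (Z.card : ℝ) ≤ C * T ^ (39 / 17 * (1 - σ) + ε + 4 * δ)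

/-- **CTAY** (short). uses: CALL_stmt, TAY_stmt. Copy of `Pool/Agent/helper1/DH/CLB.lean` (the bound
`(T^(1+2δ))^(2(1-σ)) T^ε` is replaced by `T^(39/17 (1-σ) + ε + 4δ)`; `J ≤ C T^(ε/2)`). -/
def CTAY_stmt : Prop := ∀ ε δ : ℝ, 0 < ε → 0 < δ → δ ≤ 1 / 4 → ∃ κ : ℝ, 0 < κ ∧ κ ≤ 1 ∧
  ∀ C₁ : ℝ, 0 < C₁ → ∃ C T₀ : ℝ, 0 < C ∧ ∀ T : ℝ, T₀ ≤ T → ∀ σ : ℝ, 1 / 2 ≤ σ → σ ≤ 3 / 4 →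
  ∀ c : ℕ → ℂ, (∀ n : ℕ, 1 ≤ n → (n : ℝ) ≤ T → ‖c n‖ ≤ C₁ * T ^ κ) →
  ∀ N : ℕ, T ^ δ / 2 ≤ (N : ℝ) → (N : ℝ) ≤ T ^ (1 / 2 + δ) → ∀ Z : Finset ℂ, Zer σ T Z →
  (∀ ρ ∈ Z, 1 / (C₁ * Real.log T) ≤ ‖∑ n ∈ Finset.Ioc N (2 * N), c n * (n : ℂ) ^ (-ρ)‖) →
    (Z.card : ℝ) ≤ C * T ^ (39 / 17 * (1 - σ) + ε + 4 * δ)

/-- **CCOR** (medium). uses: CTAY_stmt, DET_stmt, TWO_stmt. Copy of `Pool/Agent/helper70/DH/COR.lean`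
with `R = T^(39/17 (1-σ))` and the same `η, δ` (take `η ≤ 1/64` too, so that
`1/2 + 2η ≤ 22/39 ≤ σ`; `4 δ ≤ ε/16`). The second class: `T^(8(1-σ)) ≤ R^4` because `2 ≤ 39/17`. -/
def CCOR_stmt : Prop := ∀ ε : ℝ, 0 < ε → ∃ C T₀ : ℝ, 0 < C ∧ ∀ T : ℝ, T₀ ≤ T →
  ∀ σ : ℝ, 22 / 39 ≤ σ → σ ≤ 3 / 4 → ∀ Z : Finset ℂ, Zer σ T Z →
    (Z.card : ℝ) ≤ C * T ^ (39 / 17 * (1 - σ) + ε)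

/-- **CSIG** (short/medium). uses: CCOR_stmt, COR_stmt; library: `global_count`. All `σ`.
Proof. `σ ≤ 22/39`: `Zer σ T Z → Zer (1/2) T Z`, `Z.card ≤ C T log T ≤ C' T^(1+ε)` and
`39/17 (1-σ) ≥ 1`. `22/39 ≤ σ ≤ 3/4`: CCOR. `3/4 < σ ≤ 3/4 + ε/9`: `Zer σ T Z → Zer (3/4) T Z`, CCOR
with `ε/2` and `39/17 (1/4) = 39/17 (1-σ) + (39/17)(σ - 3/4) ≤ 39/17 (1-σ) + ε/2`.
`σ > 3/4 + ε/9`: COR with `s₀ = 3/4 + ε/9` (`2 (1-σ) ≤ 39/17 (1-σ)`). Sum of the constants. -/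
def CSIG_stmt : Prop := ∀ ε : ℝ, 0 < ε → ∃ C T₀ : ℝ, 0 < C ∧ ∀ T : ℝ, T₀ ≤ T →
  ∀ σ : ℝ, 1 / 2 ≤ σ → σ ≤ 1 → ∀ Z : Finset ℂ, Zer σ T Z →
    (Z.card : ℝ) ≤ C * T ^ (39 / 17 * (1 - σ) + ε)

/-! **ZDT** (short; the statement `ZDT_stmt` is in `Pool/Agent/helper90/ZD/Defs.lean`). uses:
CSIG_stmt. Copy of `Pool/Agent/helper1/DH/FIN.lean` with `39/17 (1 - σ)` in place of `2 (1 - σ)`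
(only `0 ≤ 39/17 (1 - σ)` for `σ ≤ 1` is used): `theorem ZDT (h : CSIG_stmt) : ZDT_stmt`. -/

end Pool.Agent.ZD
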