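import Pool.Agent.helper86.ZD.SpecC

/-!
# Project zd (MP_4467b5_nt), module CMC
-/

set_option autoImplicit false

open Complex MeasureTheory

namespace Pool.Agent.ZD

open Pool.Agent.helper84.DM Pool.Agent.helper78.ED Pool.Agent.DH

theorem CMC_real (T N σ w : ℝ) (hT : 1 ≤ T) (hN : 1 ≤ N) (hNT : N ^ 2 ≤ T)
    (h : T ^ (1 - w) ≤ N ^ (2 * (2 * σ - 1))) :
    (T + N ^ 2) * N ^ 2 ≤ 2 * T ^ w * (N ^ σ) ^ 4 := by
  have hT0 : 0 < T := by linarith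
  have hN0 : 0 < N := by linarith
  have e1 : (N ^ σ) ^ 4 = N ^ 2 * N ^ (2 * (2 * σ - 1)) := by
    rw [← Real.rpow_natCast (N ^ σ) 4, ← Real.rpow_mul hN0.le, ← Real.rpow_natCast N 2,
      ← Real.rpow_add hN0]
    congr 1
    push_cast
    ring
  have e2 : T ^ w * T ^ (1 - w) = T := by
    rw [← Real.rpow_add hT0]
    simp
  rw [e1]
  have h1 : T ≤ T ^ w * N ^ (2 * (2 * σ - 1)) := by
    calc T = T ^ w * T ^ (1 - w) := e2.symm
      _ ≤ T ^ w * N ^ (2 * (2 * σ - 1)) := mul_le_mul_of_nonneg_left h (by positivity)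
  have h2 : 0 ≤ N ^ 2 := by positivity
  nlinarith

theorem CMC (h1 : MVK_stmt) : CMC_stmt := by
  intro ε hε
  obtain ⟨C0, hC0, hmv⟩ := h1 (ε / 4) 2 (by positivity) (by norm_num)
  refine ⟨min 1 (ε / 16), by positivity, min_le_left _ _, ?_⟩
  set κ : ℝ := min 1 (ε / 16) with hκ
  intro C₁ hC₁
  refine ⟨2 * C0 * C₁ ^ 4 * (4 * C₁) ^ 4 * (16 / ε) ^ 4, 3, by positivity, ?_⟩
  intro T hT σ hσ hσ1 N hN1 hN2 hN3 a ha W hW hV
  have hT0 : 0 < T := by linarith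
  have hT1 : 1 ≤ T := by linarith
  have hlog : 0 < Real.log T := Real.log_pos (by linarith)
  have hNone : (1 : ℝ) ≤ N := (Real.one_le_rpow hT1 (by norm_num)).trans hN1
  have hNnat : 1 ≤ N := by exact_mod_cast hNone
  have hNT : (N : ℝ) ≤ T := by
    refine hN2.trans ?_
    calc T ^ (1 / 2 : ℝ) ≤ T ^ (1 : ℝ) := Real.rpow_le_rpow_of_exponent_le hT1 (by norm_num)
      _ = T := Real.rpow_one T
  have hN2T : (N : ℝ) ^ 2 ≤ T := by
    have h3 : (N : ℝ) ^ 2 ≤ (T ^ (1 / 2 : ℝ)) ^ 2 := pow_le_pow_left₀ (by positivity) hN2 2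
    have h4 : (T ^ (1 / 2 : ℝ)) ^ 2 = T := by
      rw [← Real.rpow_natCast, ← Real.rpow_mul hT0.le]
      norm_num
    rwa [h4] at h3
  have hD : 0 < 4 * C₁ * Real.log T := by positivity
  have hmain := hmv T hT1 W hW N a (C₁ * T ^ κ) ((N : ℝ) ^ σ / (4 * C₁ * Real.log T)) hNnat hNT
    (by positivity) ha hV
  have hre := CMC_real T N σ (39 / 17 * (1 - σ)) hT1 hNone hN2T hN3
  set G : ℝ := (N : ℝ) ^ σ with hG
  have hG0 : 0 < G := by rw [hG]; positivity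
  set w : ℝ := 39 / 17 * (1 - σ) with hw
  -- logarithm and powers of `T`
  have hlg : Real.log T ^ 4 ≤ (16 / ε) ^ 4 * T ^ (ε / 4) := by
    have h3 : Real.log T ≤ 16 / ε * T ^ (ε / 16) := by
      have := Real.log_le_rpow_div hT0.le (show 0 < ε / 16 by positivity)
      calc Real.log T ≤ T ^ (ε / 16) / (ε / 16) := this
        _ = 16 / ε * T ^ (ε / 16) := by field_simp
    calc Real.log T ^ 4 ≤ (16 / ε * T ^ (ε / 16)) ^ 4 := pow_le_pow_left₀ hlog.le h3 4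
      _ = (16 / ε) ^ 4 * T ^ (ε / 4) := by
        rw [mul_pow, ← Real.rpow_natCast (T ^ (ε / 16)) 4, ← Real.rpow_mul hT0.le]
        congr 2
        push_cast
        ring
  have hk4 : (T ^ κ) ^ 4 ≤ T ^ (ε / 4) := by
    rw [← Real.rpow_natCast (T ^ κ) 4, ← Real.rpow_mul hT0.le]
    refine Real.rpow_le_rpow_of_exponent_le hT1 ?_
    have : κ ≤ ε / 16 := min_le_right _ _
    push_cast
    linarith
  have hfin : (W.card : ℝ) * (G / (4 * C₁ * Real.log T)) ^ (2 * 2)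
      ≤ C0 * (C₁ * T ^ κ) ^ (2 * 2) * T ^ (ε / 4) * (2 * T ^ w * G ^ 4) :=
    hmain.trans (mul_le_mul_of_nonneg_left hre (by positivity))
  have h5 : (W.card : ℝ) ≤ C0 * (C₁ * T ^ κ) ^ 4 * T ^ (ε / 4) * (2 * T ^ w)
      * (4 * C₁ * Real.log T) ^ 4 := by
    have h6 : (W.card : ℝ) * (G ^ 4 / (4 * C₁ * Real.log T) ^ 4)
        ≤ C0 * (C₁ * T ^ κ) ^ 4 * T ^ (ε / 4) * (2 * T ^ w * G ^ 4) := by
      rw [← div_pow]
      exact hfin
    have h7 : 0 < G ^ 4 := by positivity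
    have h8 : 0 < (4 * C₁ * Real.log T) ^ 4 := by positivity
    rw [mul_div_assoc', div_le_iff₀ h8] at h6
    have h9 : (W.card : ℝ) * G ^ 4 ≤ (C0 * (C₁ * T ^ κ) ^ 4 * T ^ (ε / 4) * (2 * T ^ w)
      * (4 * C₁ * Real.log T) ^ 4) * G ^ 4 := by
      calc (W.card : ℝ) * G ^ 4 ≤ _ := h6
        _ = _ := by ring
    exact le_of_mul_le_mul_right h9 h7
  have hTw : 0 < T ^ w := by positivity
  calc (W.card : ℝ) ≤ _ := h5
    _ = 2 * C0 * C₁ ^ 4 * (4 * C₁) ^ 4 * ((T ^ κ) ^ 4 * Real.log T ^ 4 * T ^ (ε / 4)) * T ^ w := by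
        ring
    _ ≤ 2 * C0 * C₁ ^ 4 * (4 * C₁) ^ 4 *
        (T ^ (ε / 4) * ((16 / ε) ^ 4 * T ^ (ε / 4)) * T ^ (ε / 4)) * T ^ w := by
        have h10 : (T ^ κ) ^ 4 * Real.log T ^ 4 ≤ T ^ (ε / 4) * ((16 / ε) ^ 4 * T ^ (ε / 4)) :=
          mul_le_mul hk4 hlg (by positivity) (by positivity)
        refine mul_le_mul_of_nonneg_right (mul_le_mul_of_nonneg_left
          (mul_le_mul_of_nonneg_right h10 (by positivity)) (by positivity)) hTw.le
    _ = 2 * C0 * C₁ ^ 4 * (4 * C₁) ^ 4 * (16 / ε) ^ 4 * (T ^ (3 * (ε / 4)) * T ^ w) := by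
        have : T ^ (3 * (ε / 4)) = T ^ (ε / 4) * T ^ (ε / 4) * T ^ (ε / 4) := by
          rw [← Real.rpow_add hT0, ← Real.rpow_add hT0]
          congr 1
          ring
        rw [this]
        ring
    _ ≤ 2 * C0 * C₁ ^ 4 * (4 * C₁) ^ 4 * (16 / ε) ^ 4 * T ^ (w + ε) := by
        refine mul_le_mul_of_nonneg_left ?_ (by positivity)
        rw [← Real.rpow_add hT0]
        exact Real.rpow_le_rpow_of_exponent_le hT1 (by linarith)

end Pool.Agent.ZD
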