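import Pool.Agent.helper90.ZD.SpecB

set_option autoImplicit false

open Complex MeasureTheory
open scoped ComplexOrder

namespace Pool.Agent.ZD

open Pool.Agent.helper84.DM Pool.Agent.helper78.ED Pool.Agent.DH

/-- The trivial bound for `ρ`. -/
lemma BC4_rho (W : Finset ℝ) (x : ℝ) : ‖rho W x‖ ≤ (W.card : ℝ) := by
  unfold rho
  refine (norm_sum_le _ _).trans ?_
  have h : ∀ t ∈ W, ‖Complex.exp (((t * x : ℝ) : ℂ) * I)‖ ≤ 1 := fun t _ =>
    (Complex.norm_exp_ofReal_mul_I (t * x)).le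
  refine (Finset.sum_le_sum h).trans ?_
  simp

lemma BC4_cnt (A : Finset ℕ) (z η : ℝ) : 0 ≤ cnt A z η := by
  unfold cnt
  refine Finset.sum_nonneg fun n _ => Finset.sum_nonneg fun m _ => ?_
  split_ifs <;> norm_num

lemma BC4_SN (W : Finset ℝ) (J : Finset ℤ) (x : ℤ → ℝ) : 0 ≤ SN W J x := by
  unfold SN
  exact Finset.sum_nonneg fun t _ => Finset.sum_nonneg fun t' _ => by positivity

lemma BC4_QW (W : Finset ℝ) (h : ℕ) : 0 ≤ QW W h := by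
  unfold QW
  exact Finset.sum_nonneg fun t _ => Finset.sum_nonneg fun t' _ => by positivity

/-- Cauchy-Schwarz. -/
lemma BC4_cs (hSN : BSN_stmt) (W : Finset ℝ) (J : Finset ℤ) (x : ℤ → ℝ) :
    ∑ i ∈ J, ∑ i' ∈ J, ‖rho W (x i - x i')‖ ≤
      (J.card : ℝ) * (SN W J x) ^ (1 / 2 : ℝ) := by
  have h1 : (∑ p ∈ J ×ˢ J, ‖rho W (x p.1 - x p.2)‖) ^ 2 ≤
      ((J ×ˢ J).card : ℝ) * ∑ p ∈ J ×ˢ J, ‖rho W (x p.1 - x p.2)‖ ^ 2 :=
    sq_sum_le_card_mul_sum_sq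
  rw [Finset.sum_product, Finset.sum_product, Finset.card_product, ← hSN W J x] at h1
  have h0 : 0 ≤ SN W J x := BC4_SN W J x
  rw [← Real.sqrt_eq_rpow]
  have h2 : ((J.card : ℝ) * Real.sqrt (SN W J x)) ^ 2 = ((J.card * J.card : ℕ) : ℝ) * SN W J x := by
    rw [mul_pow, Real.sq_sqrt h0]
    push_cast
    ring
  rw [← h2] at h1
  exact (abs_le_of_sq_le_sq' h1 (by positivity)).2

lemma BC4_sep (δ T : ℝ) (W : Finset ℝ) (hT : 1 ≤ T) (hδ : 0 ≤ δ) (h : Sep δ T W) :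
    Sep 0 T W := by
  refine ⟨h.1, fun t ht t' ht' hne => ?_⟩
  rw [Real.rpow_zero]
  exact (Real.one_le_rpow hT hδ).trans (h.2 t ht t' ht' hne)

/-- The logarithmic factors. -/
lemma BC4_log (ε : ℝ) (hε : 0 < ε) : ∃ C : ℝ, 0 < C ∧ ∀ T : ℝ, 1 ≤ T →
    (Real.log T + 8) ^ 3 ≤ C * T ^ (ε / 2) := by
  refine ⟨(6 / ε + 8) ^ 3, by positivity, fun T hT => ?_⟩
  have hT0 : 0 ≤ T := by linarith
  have h1 : Real.log T ≤ T ^ (ε / 6) / (ε / 6) := Real.log_le_rpow_div hT0 (by positivity)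
  have h2 : 1 ≤ T ^ (ε / 6) := Real.one_le_rpow hT (by positivity)
  have h3 : Real.log T + 8 ≤ (6 / ε + 8) * T ^ (ε / 6) := by
    have h4 : T ^ (ε / 6) / (ε / 6) = 6 / ε * T ^ (ε / 6) := by
      field_simp
    rw [h4] at h1
    nlinarith
  have h5 : 0 ≤ Real.log T + 8 := by
    have := Real.log_nonneg hT
    linarith
  calc (Real.log T + 8) ^ 3 ≤ ((6 / ε + 8) * T ^ (ε / 6)) ^ 3 := pow_le_pow_left₀ h5 h3 3
    _ = (6 / ε + 8) ^ 3 * (T ^ (ε / 6)) ^ 3 := by rw [mul_pow]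
    _ = (6 / ε + 8) ^ 3 * T ^ (ε / 2) := by
        have e1 : (T ^ (ε / 6)) ^ 3 = T ^ (ε / 2) := by
          rw [← Real.rpow_natCast, ← Real.rpow_mul hT0]
          congr 1
          push_cast
          ring
        rw [e1]

/-- The Gaussian term. -/
lemma BC4_gauss (δ : ℝ) (hδ : 0 < δ) : ∃ T₁ : ℝ, ∀ T : ℝ, T₁ ≤ T → 1 ≤ T →
    320 * T ^ 2 * Real.exp (-(T ^ (2 * δ)) / 4) ≤ 1 := by
  have h1 := (isLittleO_rpow_exp_pos_mul_atTop (1 / δ) (by norm_num : (0 : ℝ) < 1 / 4)).def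
    (c := 1 / 320) (by norm_num)
  have h2 := (tendsto_rpow_atTop (by positivity : 0 < 2 * δ)).eventually h1
  obtain ⟨T₁, hT₁⟩ := Filter.eventually_atTop.mp h2
  refine ⟨T₁, fun T hT hT1 => ?_⟩
  have h3 := hT₁ T hT
  have hT0 : 0 ≤ T := by linarith
  have h4 : (T ^ (2 * δ)) ^ (1 / δ) = T ^ 2 := by
    rw [← Real.rpow_mul hT0, ← Real.rpow_natCast]
    congr 1
    push_cast
    field_simp
  rw [h4, Real.norm_of_nonneg (by positivity), Real.norm_of_nonneg (Real.exp_pos _).le] at h3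
  have h5 : Real.exp (1 / 4 * T ^ (2 * δ)) * Real.exp (-(T ^ (2 * δ)) / 4) = 1 := by
    rw [← Real.exp_add]
    have : 1 / 4 * T ^ (2 * δ) + -(T ^ (2 * δ)) / 4 = 0 := by ring
    rw [this, Real.exp_zero]
  have h6 : 0 < Real.exp (-(T ^ (2 * δ)) / 4) := Real.exp_pos _
  calc 320 * T ^ 2 * Real.exp (-(T ^ (2 * δ)) / 4)
      ≤ 320 * (1 / 320 * Real.exp (1 / 4 * T ^ (2 * δ))) * Real.exp (-(T ^ (2 * δ)) / 4) := by
        gcongr
    _ = Real.exp (1 / 4 * T ^ (2 * δ)) * Real.exp (-(T ^ (2 * δ)) / 4) := by ring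
    _ = 1 := h5

/-- The number of dyadic blocks. -/
lemma BC4_M (T N : ℝ) (hN : 1 ≤ N) (hNT : N ≤ T) : ∃ M : ℕ, T / N ≤ 2 ^ M ∧
    (2 : ℝ) ^ M ≤ 2 * (T / N) ∧ ((M : ℝ) + 1) ≤ 2 * (Real.log T + 8) := by
  have hN0 : 0 < N := by linarith
  have h1 : 1 ≤ T / N := by
    rw [le_div_iff₀ hN0]
    linarith
  obtain ⟨n, hn1, hn2⟩ := exists_nat_pow_near h1 (by norm_num : (1 : ℝ) < 2)
  refine ⟨n + 1, hn2.le, ?_, ?_⟩
  · rw [pow_succ]
    linarith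
  · have h3 : (2 : ℝ) ^ n ≤ T := hn1.trans (div_le_self (by linarith) hN)
    have h4 : Real.log ((2 : ℝ) ^ n) ≤ Real.log T := Real.log_le_log (by positivity) h3
    rw [Real.log_pow] at h4
    have h5 := Real.log_two_gt_d9
    have h6 : (0 : ℝ) ≤ n := Nat.cast_nonneg n
    push_cast
    nlinarith

/-- The purely numerical end of the proof. -/
lemma BC4_num (T N P S Sn lam B η ε' δ C1 C2 K M1 Lg X A G : ℝ)
    (hT : 1 ≤ T) (hN : 0 ≤ N) (hP : 0 ≤ P) (hS : 0 ≤ S) (hSn : 0 ≤ Sn) (hlam : 0 < lam)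
    (hδ : 0 ≤ δ) (hε' : 0 ≤ ε')
    (hη : η = T ^ (δ - 1)) (hC1 : 0 < C1) (hC2 : 0 < C2) (hM1 : 1 ≤ M1)
    (hK : Lg ^ 2 * M1 ≤ K * T ^ ε')
    (hA : A ≤ P * Sn ^ (1 / 2 : ℝ))
    (hG : G ≤ N * P * S / lam)
    (hX : X ≤ 10 ^ 5 * T * Lg ^ 2 * B ^ 2 * (C1 * (N ^ 2 / T + η * N ^ 2) * A +
      C1 * (M1 * (N * (20 * T * η * (5 * T ^ δ) * P * (C2 * T ^ ε' * S)) / lam)) + G)) :
    X ≤ 10 ^ 5 * K * (2 * C1 + 100 * C1 * C2 + 1) * B ^ 2 * T ^ (2 * ε' + 2 * δ) *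
      (N ^ 2 * P * Sn ^ (1 / 2 : ℝ) + T * N * P * S / lam) := by
  have hT0 : 0 < T := by linarith
  have hη1 : T * η = T ^ δ := by
    rw [hη]
    nth_rewrite 1 [← Real.rpow_one T]
    rw [← Real.rpow_add hT0]
    congr 1
    ring
  have hTδ : 1 ≤ T ^ δ := Real.one_le_rpow hT hδ
  have hTε : 1 ≤ T ^ ε' := Real.one_le_rpow hT hε'
  have hTδ2 : T ^ δ ≤ T ^ δ * T ^ δ := by nlinarith
  set u : ℝ := T ^ δ with hu
  set v : ℝ := T ^ ε' with hv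
  have hpow : T ^ (2 * ε' + 2 * δ) = v * v * (u * u) := by
    rw [hu, hv, ← Real.rpow_add hT0, ← Real.rpow_add hT0, ← Real.rpow_add hT0]
    congr 1
    ring
  set X1 : ℝ := N ^ 2 * P * Sn ^ (1 / 2 : ℝ) with hX1
  set X2 : ℝ := T * N * P * S / lam with hX2
  have hX1n : 0 ≤ X1 := by positivity
  have hX2n : 0 ≤ X2 := by positivity
  -- the three terms, multiplied by T
  have h1 : T * (C1 * (N ^ 2 / T + η * N ^ 2) * A) ≤ 2 * C1 * u * X1 := by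
    have e1 : T * (C1 * (N ^ 2 / T + η * N ^ 2) * A) = C1 * (N ^ 2 + T * η * N ^ 2) * A := by
      field_simp
    rw [e1, hη1]
    calc C1 * (N ^ 2 + u * N ^ 2) * A ≤ C1 * (N ^ 2 + u * N ^ 2) * (P * Sn ^ (1 / 2 : ℝ)) := by
          gcongr
      _ ≤ C1 * (u * N ^ 2 + u * N ^ 2) * (P * Sn ^ (1 / 2 : ℝ)) := by
          have : N ^ 2 ≤ u * N ^ 2 := by nlinarith [sq_nonneg N]
          gcongr
      _ = 2 * C1 * u * X1 := by
          rw [hX1]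
          ring
  have h2 : T * (C1 * (M1 * (N * (20 * T * η * (5 * u) * P * (C2 * v * S)) / lam))) =
      100 * C1 * C2 * M1 * (v * (u * u)) * X2 := by
    have e1 : T * (C1 * (M1 * (N * (20 * T * η * (5 * u) * P * (C2 * v * S)) / lam))) =
      100 * C1 * C2 * M1 * (v * ((T * η) * u)) * (T * N * P * S / lam) := by
      field_simp
      ring
    rw [e1, hη1]
  have h3 : T * G ≤ X2 := by
    have : T * (N * P * S / lam) = X2 := by
      rw [hX2]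
      ring
    rw [← this]
    gcongr
  have huu : 1 ≤ u * u := by nlinarith
  have hvu : u * u ≤ v * (u * u) := by nlinarith
  have hM : v * (u * u) ≤ M1 * (v * (u * u)) := by nlinarith
  set q : ℝ := M1 * (v * (u * u)) with hq
  have hq1 : u ≤ q := by linarith
  have hq2 : 1 ≤ q := by linarith
  have h4 : T * (C1 * (N ^ 2 / T + η * N ^ 2) * A +
      C1 * (M1 * (N * (20 * T * η * (5 * u) * P * (C2 * v * S)) / lam)) + G) ≤
      (2 * C1 + 100 * C1 * C2 + 1) * q * (X1 + X2) := by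
    have e : T * (C1 * (N ^ 2 / T + η * N ^ 2) * A +
      C1 * (M1 * (N * (20 * T * η * (5 * u) * P * (C2 * v * S)) / lam)) + G) =
      T * (C1 * (N ^ 2 / T + η * N ^ 2) * A) +
      T * (C1 * (M1 * (N * (20 * T * η * (5 * u) * P * (C2 * v * S)) / lam))) + T * G := by ring
    rw [e, h2]
    have g1 : 2 * C1 * u * X1 ≤ 2 * C1 * q * X1 := by gcongr
    have g2 : X2 ≤ q * X2 := by nlinarith
    have g3 : 100 * C1 * C2 * M1 * (v * (u * u)) * X2 = 100 * C1 * C2 * q * X2 := by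
      rw [hq]
      ring
    rw [g3]
    have g4 : 0 ≤ q * X1 := by positivity
    have g5 : 0 ≤ q * X2 := by positivity
    have g6 : 0 ≤ C1 * C2 * (q * X1) := by positivity
    have g7 : 0 ≤ C1 * (q * X2) := by positivity
    nlinarith
  calc X ≤ 10 ^ 5 * T * Lg ^ 2 * B ^ 2 * (C1 * (N ^ 2 / T + η * N ^ 2) * A +
      C1 * (M1 * (N * (20 * T * η * (5 * u) * P * (C2 * v * S)) / lam)) + G) := hX
    _ = 10 ^ 5 * Lg ^ 2 * B ^ 2 * (T * (C1 * (N ^ 2 / T + η * N ^ 2) * A +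
      C1 * (M1 * (N * (20 * T * η * (5 * u) * P * (C2 * v * S)) / lam)) + G)) := by ring
    _ ≤ 10 ^ 5 * Lg ^ 2 * B ^ 2 * ((2 * C1 + 100 * C1 * C2 + 1) * q * (X1 + X2)) := by
        gcongr
    _ = 10 ^ 5 * (Lg ^ 2 * M1) * (2 * C1 + 100 * C1 * C2 + 1) * B ^ 2 * (v * (u * u)) *
        (X1 + X2) := by
        rw [hq]
        ring
    _ ≤ 10 ^ 5 * (K * v) * (2 * C1 + 100 * C1 * C2 + 1) * B ^ 2 * (v * (u * u)) *
        (X1 + X2) := by
        gcongr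
    _ = 10 ^ 5 * K * (2 * C1 + 100 * C1 * C2 + 1) * B ^ 2 * T ^ (2 * ε' + 2 * δ) *
        (X1 + X2) := by
        rw [hpow]
        ring

theorem BC4 (h6 : BC6_stmt) (h7 : BC7_stmt) (hCN : BCN_stmt) (hSN : BSN_stmt)
    (hR4 : BR4_stmt) : BC4_stmt := by
  intro ε δ hε hδ hδ1
  obtain ⟨C1, hC1, hcn⟩ := hCN
  obtain ⟨C2, T2, hC2, hr4⟩ := hR4 (ε / 2) δ (by positivity) hδ (by linarith)
  obtain ⟨K, hK, hlog⟩ := BC4_log ε hε
  obtain ⟨T1, hT1⟩ := BC4_gauss δ hδ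
  refine ⟨10 ^ 5 * (2 * K) * (2 * C1 + 100 * C1 * C2 + 1), max 1 (max T1 T2), by positivity, ?_⟩
  intro T hT W hW N b B V lam J x hN1 hN2 hB hV hb hD hWS hJ hlam hJl
  have hTa : 1 ≤ T := (le_max_left _ _).trans hT
  have hTb : T1 ≤ T := ((le_max_left _ _).trans (le_max_right _ _)).trans hT
  have hTc : T2 ≤ T := ((le_max_right _ _).trans (le_max_right _ _)).trans hT
  have hT0 : 0 < T := by linarith
  have hSep0 : Sep 0 T W := BC4_sep δ T W hTa hδ.le hW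
  have hNr : (1 : ℝ) ≤ N := (Real.one_le_rpow hTa (by positivity)).trans hN1
  have hNn : 1 ≤ N := by exact_mod_cast hNr
  have hNpos : (0 : ℝ) < N := by linarith
  have hη0 : 0 < T ^ (δ - 1) := Real.rpow_pos_of_pos hT0 _
  have hη1 : T ^ (δ - 1) ≤ 1 := Real.rpow_le_one_of_one_le_of_nonpos hTa (by linarith)
  have hη2 : 1 / T ≤ T ^ (δ - 1) := by
    rw [one_div, ← Real.rpow_neg_one]
    exact Real.rpow_le_rpow_of_exponent_le hTa (by linarith)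
  have hTN : T ≤ (N : ℝ) ^ 2 := by
    have e1 : (T ^ (2 / 3 * (1 + δ))) ^ 2 ≤ (N : ℝ) ^ 2 :=
      pow_le_pow_left₀ (by positivity) hN1 2
    have e2 : T ≤ (T ^ (2 / 3 * (1 + δ))) ^ 2 := by
      rw [← Real.rpow_natCast, ← Real.rpow_mul hT0.le]
      nth_rewrite 1 [← Real.rpow_one T]
      apply Real.rpow_le_rpow_of_exponent_le hTa
      push_cast
      linarith
    linarith
  obtain ⟨M, hM1, hM2, hM3⟩ := BC4_M T N hNr hN2
  -- dyadic lengths are small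
  have hMle : ∀ j ∈ Finset.range (M + 1), ((2 ^ j : ℕ) : ℝ) ≤ 2 * T ^ ((1 + δ) / 3) := by
    intro j hj
    have hjM : j ≤ M := by
      have := Finset.mem_range.mp hj
      omega
    have e1 : ((2 ^ j : ℕ) : ℝ) ≤ 2 ^ M := by
      push_cast
      exact pow_le_pow_right₀ (by norm_num) hjM
    have e2 : T / N ≤ T ^ ((1 + δ) / 3) := by
      rw [div_le_iff₀ hNpos]
      calc T = T ^ (1 / 3 - 2 / 3 * δ) * T ^ (2 / 3 * (1 + δ)) := by
            rw [← Real.rpow_add hT0]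
            have : 1 / 3 - 2 / 3 * δ + 2 / 3 * (1 + δ) = 1 := by ring
            rw [this, Real.rpow_one]
        _ ≤ T ^ ((1 + δ) / 3) * N := by
            apply mul_le_mul _ hN1 (by positivity) (by positivity)
            exact Real.rpow_le_rpow_of_exponent_le hTa (by linarith)
    linarith
  by_cases hJe : J = ∅
  · subst hJe
    simp [SN, nu]
  have hJne : J.Nonempty := Finset.nonempty_iff_ne_empty.mpr hJe
  have hlamR : lam ≤ (W.card : ℝ) := by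
    obtain ⟨j, hj⟩ := hJne
    exact (hJl j hj).trans (BC4_rho W (x j))
  have hS0 : (W.card : ℝ) ^ 2 ≤ S0 δ T W := by
    unfold S0
    have : 0 ≤ (W.card : ℝ) ^ (3 / 2 : ℝ) * T ^ ((1 + δ) / 3) := by positivity
    linarith
  have hS0n : 0 ≤ S0 δ T W := (sq_nonneg _).trans hS0
  -- BC7
  have hbc7 := h7 T (T ^ (δ - 1)) W N b B V J x hTa hSep0 hNn hN2 hη0.le (by linarith) hV hb hD
    hWS.1
  -- BC6 and BR4 for each dyadic block
  have hblock : ∀ j ∈ Finset.range (M + 1),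
      (N : ℝ) / 2 ^ j * ∑ i ∈ J, ∑ i' ∈ J, ‖rho W (x i - x i')‖ *
        cnt (IL (2 ^ j)) (x i - x i') (T ^ (δ - 1)) ≤
      (N : ℝ) * (20 * T * T ^ (δ - 1) * (5 * T ^ δ) * (J.card : ℝ) *
        (C2 * T ^ (ε / 2) * S0 δ T W)) / lam := by
    intro j hj
    have e1 := h6 T (T ^ (δ - 1)) (5 * T ^ δ) lam W J x (2 ^ j) hTa hη2 hSep0 hWS (by linarith)
      hJl
    have e2 := hr4 T hTc W hW (2 ^ j) (Nat.one_le_two_pow) (hMle j hj)
    have e3 : (0 : ℝ) < 2 ^ j := by positivity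
    have e4 : ((2 ^ j : ℕ) : ℝ) = (2 : ℝ) ^ j := by push_cast; rfl
    rw [e4] at e2
    rw [le_div_iff₀ (by linarith : 0 < lam)]
    calc (N : ℝ) / 2 ^ j * (∑ i ∈ J, ∑ i' ∈ J, ‖rho W (x i - x i')‖ *
          cnt (IL (2 ^ j)) (x i - x i') (T ^ (δ - 1))) * lam
        = (N : ℝ) / 2 ^ j * (lam * ∑ i ∈ J, ∑ i' ∈ J, ‖rho W (x i - x i')‖ *
          cnt (IL (2 ^ j)) (x i - x i') (T ^ (δ - 1))) := by ring
      _ ≤ (N : ℝ) / 2 ^ j * (20 * T * T ^ (δ - 1) * (5 * T ^ δ) * (J.card : ℝ) *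
          QW W (2 ^ j)) := by gcongr
      _ ≤ (N : ℝ) / 2 ^ j * (20 * T * T ^ (δ - 1) * (5 * T ^ δ) * (J.card : ℝ) *
          (C2 * T ^ (ε / 2) * 2 ^ j * S0 δ T W)) := by gcongr
      _ = (N : ℝ) * (20 * T * T ^ (δ - 1) * (5 * T ^ δ) * (J.card : ℝ) *
          (C2 * T ^ (ε / 2) * S0 δ T W)) := by
          field_simp
  have hsum : ∑ i ∈ J, ∑ i' ∈ J, ‖rho W (x i - x i')‖ *
      cnt (Finset.Ioc N (4 * N)) (x i - x i') (T ^ (δ - 1)) ≤
      C1 * ((N : ℝ) ^ 2 / T + T ^ (δ - 1) * (N : ℝ) ^ 2) *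
        ∑ i ∈ J, ∑ i' ∈ J, ‖rho W (x i - x i')‖ +
      C1 * (((M : ℝ) + 1) * ((N : ℝ) * (20 * T * T ^ (δ - 1) * (5 * T ^ δ) * (J.card : ℝ) *
        (C2 * T ^ (ε / 2) * S0 δ T W)) / lam)) := by
    calc ∑ i ∈ J, ∑ i' ∈ J, ‖rho W (x i - x i')‖ *
          cnt (Finset.Ioc N (4 * N)) (x i - x i') (T ^ (δ - 1))
        ≤ ∑ i ∈ J, ∑ i' ∈ J, ‖rho W (x i - x i')‖ *
          (C1 * ((N : ℝ) ^ 2 / T + T ^ (δ - 1) * (N : ℝ) ^ 2) +
            C1 * ∑ j ∈ Finset.range (M + 1), (N : ℝ) / 2 ^ j *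
              cnt (IL (2 ^ j)) (x i - x i') (T ^ (δ - 1))) := by
          refine Finset.sum_le_sum fun i _ => Finset.sum_le_sum fun i' _ => ?_
          exact mul_le_mul_of_nonneg_left
            (hcn N M T (x i - x i') (T ^ (δ - 1)) hNn hN2 hTN hM1 hη0 hη1) (norm_nonneg _)
      _ = C1 * ((N : ℝ) ^ 2 / T + T ^ (δ - 1) * (N : ℝ) ^ 2) *
            ∑ i ∈ J, ∑ i' ∈ J, ‖rho W (x i - x i')‖ +
          C1 * ∑ j ∈ Finset.range (M + 1), (N : ℝ) / 2 ^ j *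
            ∑ i ∈ J, ∑ i' ∈ J, ‖rho W (x i - x i')‖ *
              cnt (IL (2 ^ j)) (x i - x i') (T ^ (δ - 1)) := by
          have e : ∀ i ∈ J, ∀ i' ∈ J, ‖rho W (x i - x i')‖ *
              (C1 * ((N : ℝ) ^ 2 / T + T ^ (δ - 1) * (N : ℝ) ^ 2) +
              C1 * ∑ j ∈ Finset.range (M + 1), (N : ℝ) / 2 ^ j *
                cnt (IL (2 ^ j)) (x i - x i') (T ^ (δ - 1))) =
              C1 * ((N : ℝ) ^ 2 / T + T ^ (δ - 1) * (N : ℝ) ^ 2) * ‖rho W (x i - x i')‖ +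
              ∑ j ∈ Finset.range (M + 1), C1 * ((N : ℝ) / 2 ^ j * (‖rho W (x i - x i')‖ *
                cnt (IL (2 ^ j)) (x i - x i') (T ^ (δ - 1)))) := by
            intro i _ i' _
            rw [mul_add, Finset.mul_sum, Finset.mul_sum]
            congr 1
            · ring
            · exact Finset.sum_congr rfl fun j _ => by ring
          rw [Finset.sum_congr rfl fun i hi => Finset.sum_congr rfl fun i' hi' => e i hi i' hi']
          simp_rw [Finset.sum_add_distrib, ← Finset.mul_sum]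
          congr 1
          rw [Finset.sum_congr rfl fun i _ => Finset.sum_comm, Finset.sum_comm]
          simp_rw [← Finset.mul_sum]
      _ ≤ C1 * ((N : ℝ) ^ 2 / T + T ^ (δ - 1) * (N : ℝ) ^ 2) *
            ∑ i ∈ J, ∑ i' ∈ J, ‖rho W (x i - x i')‖ +
          C1 * ∑ j ∈ Finset.range (M + 1), ((N : ℝ) * (20 * T * T ^ (δ - 1) * (5 * T ^ δ) *
            (J.card : ℝ) * (C2 * T ^ (ε / 2) * S0 δ T W)) / lam) := by
          have := Finset.sum_le_sum hblock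
          gcongr
      _ = _ := by
          rw [Finset.sum_const, Finset.card_range, nsmul_eq_mul]
          push_cast
          ring
  -- the Gaussian term
  have hG : 16 * (J.card : ℝ) ^ 2 * (N : ℝ) ^ 2 * (W.card : ℝ) *
      Real.exp (-(T * T ^ (δ - 1)) ^ 2 / 4) ≤ (N : ℝ) * (J.card : ℝ) * S0 δ T W / lam := by
    have e1 : (T * T ^ (δ - 1)) ^ 2 = T ^ (2 * δ) := by
      nth_rewrite 1 [← Real.rpow_one T]
      rw [← Real.rpow_add hT0, ← Real.rpow_natCast, ← Real.rpow_mul hT0.le]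
      congr 1
      push_cast
      ring
    rw [e1, le_div_iff₀ (by linarith : 0 < lam)]
    have e2 := hT1 T hTb hTa
    have e3 : 0 < Real.exp (-(T ^ (2 * δ)) / 4) := Real.exp_pos _
    set g := Real.exp (-(T ^ (2 * δ)) / 4) with hg
    calc 16 * (J.card : ℝ) ^ 2 * (N : ℝ) ^ 2 * (W.card : ℝ) * g * lam
        = (N : ℝ) * (J.card : ℝ) * (16 * (J.card : ℝ) * N * g * ((W.card : ℝ) * lam)) := by ring
      _ ≤ (N : ℝ) * (J.card : ℝ) * (16 * (20 * T) * T * g * ((W.card : ℝ) * (W.card : ℝ))) := by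
          gcongr
      _ = (N : ℝ) * (J.card : ℝ) * ((320 * T ^ 2 * g) * (W.card : ℝ) ^ 2) := by ring
      _ ≤ (N : ℝ) * (J.card : ℝ) * (1 * S0 δ T W) := by gcongr
      _ = (N : ℝ) * (J.card : ℝ) * S0 δ T W := by ring
  have hX : V ^ 2 * SN W J x ≤ 10 ^ 5 * T * (Real.log T + 8) ^ 2 * B ^ 2 *
      (C1 * ((N : ℝ) ^ 2 / T + T ^ (δ - 1) * (N : ℝ) ^ 2) *
        (∑ i ∈ J, ∑ i' ∈ J, ‖rho W (x i - x i')‖) +
      C1 * (((M : ℝ) + 1) * ((N : ℝ) * (20 * T * T ^ (δ - 1) * (5 * T ^ δ) * (J.card : ℝ) *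
        (C2 * T ^ (ε / 2) * S0 δ T W)) / lam)) +
      16 * (J.card : ℝ) ^ 2 * (N : ℝ) ^ 2 * (W.card : ℝ) *
        Real.exp (-(T * T ^ (δ - 1)) ^ 2 / 4)) := by
    refine hbc7.trans ?_
    gcongr
  have hKK : (Real.log T + 8) ^ 2 * ((M : ℝ) + 1) ≤ (2 * K) * T ^ (ε / 2) := by
    have e1 := hlog T hTa
    calc (Real.log T + 8) ^ 2 * ((M : ℝ) + 1) ≤ (Real.log T + 8) ^ 2 *
          (2 * (Real.log T + 8)) := by gcongr
      _ = 2 * (Real.log T + 8) ^ 3 := by ring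
      _ ≤ 2 * (K * T ^ (ε / 2)) := by gcongr
      _ = (2 * K) * T ^ (ε / 2) := by ring
  have hfin := BC4_num T N J.card (S0 δ T W) (SN W J x) lam B (T ^ (δ - 1)) (ε / 2) δ
    C1 C2 (2 * K) ((M : ℝ) + 1) (Real.log T + 8) (V ^ 2 * SN W J x)
    (∑ i ∈ J, ∑ i' ∈ J, ‖rho W (x i - x i')‖)
    (16 * (J.card : ℝ) ^ 2 * (N : ℝ) ^ 2 * (W.card : ℝ) * Real.exp (-(T * T ^ (δ - 1)) ^ 2 / 4))
    hTa hNpos.le (by positivity) hS0n (BC4_SN W J x) (by linarith) hδ.le (by positivity) rfl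
    hC1 hC2 (by have : (0 : ℝ) ≤ M := Nat.cast_nonneg M; linarith) hKK
    (BC4_cs hSN W J x) hG hX
  have e : 2 * (ε / 2) + 2 * δ = ε + 2 * δ := by ring
  rw [e] at hfin
  exact hfin

end Pool.Agent.ZD
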